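import Mathlib

/-!
Digit maps: `v : (ℕ → Bool) → ℝ` (binary value) and `Phi : (ℕ → Bool) × (ℕ → Bool) → ℝ`
(base 16 digits `2 x + y`), the 1/4-Hölder estimate `|v y - v y'| ^ 4 ≤ (5/4) |Phi - Phi'|`.
-/

namespace Pool.Agent.Q302.HM

open Set MeasureTheory Topology Filter

/-- shift -/
def sh (y : ℕ → Bool) : ℕ → Bool := fun n => y (n + 1)

/-- digit as a real number -/
def dg (b : Bool) : ℝ := cond b 1 0

theorem dg_nonneg (b : Bool) : 0 ≤ dg b := by cases b <;> simp [dg]
theorem dg_le (b : Bool) : dg b ≤ 1 := by cases b <;> simp [dg]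

/-- binary value -/
noncomputable def v (y : ℕ → Bool) : ℝ := (1 / 2) * Cardinal.cantorFunction (1 / 2) y

/-- base 16 value of the pair -/
noncomputable def Phi (x y : ℕ → Bool) : ℝ :=
  2 * Cardinal.cantorFunction (1 / 16) x + Cardinal.cantorFunction (1 / 16) y

theorem v_succ (y : ℕ → Bool) : v y = (1 / 2) * dg (y 0) + (1 / 2) * v (sh y) := by
  unfold v
  rw [Cardinal.cantorFunction_succ y (by norm_num) (by norm_num)]
  unfold dg sh
  ring

theorem Phi_succ (x y : ℕ → Bool) :
    Phi x y = 2 * dg (x 0) + dg (y 0) + (1 / 16) * Phi (sh x) (sh y) := by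
  unfold Phi
  rw [Cardinal.cantorFunction_succ x (by norm_num) (by norm_num),
    Cardinal.cantorFunction_succ y (by norm_num) (by norm_num)]
  unfold dg sh
  ring

theorem cf_nonneg {c : ℝ} (h1 : 0 ≤ c) (y : ℕ → Bool) : 0 ≤ Cardinal.cantorFunction c y :=
  tsum_nonneg fun _ => Cardinal.cantorFunctionAux_nonneg h1

theorem cf_le {c : ℝ} (h1 : 0 ≤ c) (h2 : c < 1) (y : ℕ → Bool) :
    Cardinal.cantorFunction c y ≤ (1 - c)⁻¹ := by
  rw [← tsum_geometric_of_lt_one h1 h2]
  refine (Cardinal.summable_cantor_function y h1 h2).tsum_le_tsum ?_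
    (summable_geometric_of_lt_one h1 h2)
  intro n
  cases h : y n <;> simp [h, pow_nonneg h1]

theorem v_nonneg (y : ℕ → Bool) : 0 ≤ v y :=
  mul_nonneg (by norm_num) (cf_nonneg (by norm_num) y)

theorem v_le (y : ℕ → Bool) : v y ≤ 1 := by
  unfold v
  have := cf_le (c := 1 / 2) (by norm_num) (by norm_num) y
  norm_num at this ⊢
  linarith

theorem Phi_nonneg (x y : ℕ → Bool) : 0 ≤ Phi x y := by
  unfold Phi
  have := cf_nonneg (c := 1 / 16) (by norm_num) x
  have := cf_nonneg (c := 1 / 16) (by norm_num) y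
  positivity

theorem Phi_le (x y : ℕ → Bool) : Phi x y ≤ 16 / 5 := by
  unfold Phi
  have h1 := cf_le (c := 1 / 16) (by norm_num) (by norm_num) x
  have h2 := cf_le (c := 1 / 16) (by norm_num) (by norm_num) y
  norm_num at h1 h2 ⊢
  linarith

/-- If the first digits differ then the values of `Phi` differ by at least `4/5`. -/
theorem Phi_sep {x y x' y' : ℕ → Bool} (h : ¬ (x 0 = x' 0 ∧ y 0 = y' 0)) :
    4 / 5 ≤ |Phi x y - Phi x' y'| := by
  have e1 := Phi_succ x y
  have e2 := Phi_succ x' y'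
  have a1 := Phi_nonneg (sh x) (sh y)
  have a2 := Phi_le (sh x) (sh y)
  have b1 := Phi_nonneg (sh x') (sh y')
  have b2 := Phi_le (sh x') (sh y')
  rcases hx : x 0 <;> rcases hx' : x' 0 <;> rcases hy : y 0 <;> rcases hy' : y' 0 <;>
    simp only [hx, hx', hy, hy', dg, cond_true, cond_false] at e1 e2 h <;>
    first
    | (exfalso; revert h; simp; done)
    | (rw [le_abs]; right; linarith)
    | (rw [le_abs]; left; linarith)

theorem Phi_diff {x y x' y' : ℕ → Bool} (h : x 0 = x' 0 ∧ y 0 = y' 0) :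
    |Phi x y - Phi x' y'| = (1 / 16) * |Phi (sh x) (sh y) - Phi (sh x') (sh y')| := by
  rw [Phi_succ x y, Phi_succ x' y', h.1, h.2]
  rw [← abs_of_nonneg (show (0 : ℝ) ≤ 1 / 16 by norm_num), ← abs_mul,
    abs_of_nonneg (show (0 : ℝ) ≤ 1 / 16 by norm_num)]
  congr 1
  ring

theorem v_diff {y y' : ℕ → Bool} (h : y 0 = y' 0) :
    |v y - v y'| = (1 / 2) * |v (sh y) - v (sh y')| := by
  rw [v_succ y, v_succ y', h]
  rw [← abs_of_nonneg (show (0 : ℝ) ≤ 1 / 2 by norm_num), ← abs_mul,
    abs_of_nonneg (show (0 : ℝ) ≤ 1 / 2 by norm_num)]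
  congr 1
  ring

theorem v_dist_le (y y' : ℕ → Bool) : |v y - v y'| ≤ 1 := by
  rw [abs_le]
  have := v_nonneg y
  have := v_nonneg y'
  have := v_le y
  have := v_le y'
  constructor <;> linarith

theorem holder_aux (n : ℕ) : ∀ x y x' y' : ℕ → Bool,
    |v y - v y'| ^ 4 ≤ (5 / 4) * |Phi x y - Phi x' y'| + (1 / 16) ^ n := by
  induction n with
  | zero =>
    intro x y x' y'
    have h1 : |v y - v y'| ^ 4 ≤ 1 := pow_le_one₀ (abs_nonneg _) (v_dist_le y y')
    have h2 : 0 ≤ |Phi x y - Phi x' y'| := abs_nonneg _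
    simp only [pow_zero]
    linarith
  | succ n ih =>
    intro x y x' y'
    by_cases h : x 0 = x' 0 ∧ y 0 = y' 0
    · rw [Phi_diff h, v_diff h.2, mul_pow, pow_succ (1 / 16 : ℝ) n]
      have := ih (sh x) (sh y) (sh x') (sh y')
      have e : ((1 : ℝ) / 2) ^ 4 = 1 / 16 := by norm_num
      rw [e]
      linarith
    · have h1 : |v y - v y'| ^ 4 ≤ 1 := pow_le_one₀ (abs_nonneg _) (v_dist_le y y')
      have h2 := Phi_sep h
      have h3 : (0 : ℝ) ≤ (1 / 16) ^ (n + 1) := by positivity
      linarith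

theorem holder (x y x' y' : ℕ → Bool) :
    |v y - v y'| ^ 4 ≤ (5 / 4) * |Phi x y - Phi x' y'| := by
  refine le_of_forall_pos_le_add fun ε hε => ?_
  obtain ⟨n, hn⟩ := exists_pow_lt_of_lt_one hε (show (1 / 16 : ℝ) < 1 by norm_num)
  exact (holder_aux n x y x' y').trans (by linarith)

theorem Phi_inj_aux (n : ℕ) : ∀ x y x' y' : ℕ → Bool, Phi x y = Phi x' y' →
    x n = x' n ∧ y n = y' n := by
  induction n with
  | zero =>
    intro x y x' y' h
    by_contra hc
    have := Phi_sep hc
    rw [h, sub_self, abs_zero] at this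
    norm_num at this
  | succ n ih =>
    intro x y x' y' h
    have h0 : x 0 = x' 0 ∧ y 0 = y' 0 := by
      by_contra hc
      have := Phi_sep hc
      rw [h, sub_self, abs_zero] at this
      norm_num at this
    have h1 := Phi_diff h0
    rw [h, sub_self, abs_zero] at h1
    have h2 : |Phi (sh x) (sh y) - Phi (sh x') (sh y')| = 0 := by linarith
    have h3 : Phi (sh x) (sh y) = Phi (sh x') (sh y') := sub_eq_zero.1 (abs_eq_zero.1 h2)
    exact ih _ _ _ _ h3

theorem Phi_inj {x y x' y' : ℕ → Bool} (h : Phi x y = Phi x' y') : x = x' ∧ y = y' :=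
  ⟨funext fun n => (Phi_inj_aux n x y x' y' h).1, funext fun n => (Phi_inj_aux n x y x' y' h).2⟩

theorem continuous_cf {c : ℝ} (h1 : 0 ≤ c) (h2 : c < 1) :
    Continuous (fun y : ℕ → Bool => Cardinal.cantorFunction c y) := by
  unfold Cardinal.cantorFunction
  refine continuous_tsum (u := fun n => c ^ n) ?_ (summable_geometric_of_lt_one h1 h2) ?_
  · intro n
    have : (fun y : ℕ → Bool => Cardinal.cantorFunctionAux c y n)
        = (fun b : Bool => cond b (c ^ n) 0) ∘ (fun y : ℕ → Bool => y n) := rfl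
    rw [this]
    exact (continuous_of_discreteTopology).comp (continuous_apply n)
  · intro n y
    cases h : y n <;> simp [h, abs_of_nonneg h1, pow_nonneg h1]

theorem continuous_Phi : Continuous (fun p : (ℕ → Bool) × (ℕ → Bool) => Phi p.1 p.2) := by
  unfold Phi
  exact (continuous_const.mul
    ((continuous_cf (c := 1 / 16) (by norm_num) (by norm_num)).comp continuous_fst)).add
    ((continuous_cf (c := 1 / 16) (by norm_num) (by norm_num)).comp continuous_snd)

/-- surjectivity of `v` onto `[0,1]` -/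
noncomputable def T (r : ℝ) : ℝ := if 1 / 2 ≤ r then 2 * r - 1 else 2 * r

noncomputable def F (r : ℝ) : ℕ → Bool := fun n => decide (1 / 2 ≤ T^[n] r)

theorem F_zero (r : ℝ) : F r 0 = decide (1 / 2 ≤ r) := rfl

theorem sh_F (r : ℝ) : sh (F r) = F (T r) := by
  funext n
  simp [sh, F, Function.iterate_succ_apply]

theorem T_mem {r : ℝ} (h : r ∈ Icc (0 : ℝ) 1) : T r ∈ Icc (0 : ℝ) 1 := by
  unfold T
  obtain ⟨h0, h1⟩ := h
  split_ifs with h2
  · constructor <;> linarith
  · constructor <;> linarith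

theorem v_surj_aux (n : ℕ) : ∀ r ∈ Icc (0 : ℝ) 1, |r - v (F r)| ≤ (1 / 2) ^ n := by
  induction n with
  | zero =>
    intro r hr
    have := v_nonneg (F r)
    have := v_le (F r)
    rw [abs_le]
    constructor <;> simp only [pow_zero] <;> linarith [hr.1, hr.2]
  | succ n ih =>
    intro r hr
    have h1 := ih (T r) (T_mem hr)
    have h2 : r - v (F r) = (1 / 2) * (T r - v (F (T r))) := by
      rw [v_succ (F r), sh_F, F_zero]
      unfold T
      by_cases h : (1 / 2 : ℝ) ≤ r
      · simp only [h, if_true, decide_true, dg, cond_true]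
        ring
      · simp only [h, if_false, decide_false, dg, cond_false]
        ring
    rw [h2, abs_mul, abs_of_nonneg (show (0 : ℝ) ≤ 1 / 2 by norm_num), pow_succ]
    linarith

theorem v_F {r : ℝ} (hr : r ∈ Icc (0 : ℝ) 1) : v (F r) = r := by
  have : |r - v (F r)| = 0 := by
    refine le_antisymm ?_ (abs_nonneg _)
    refine le_of_forall_pos_le_add fun ε hε => ?_
    obtain ⟨n, hn⟩ := exists_pow_lt_of_lt_one hε (show (1 / 2 : ℝ) < 1 by norm_num)
    have := v_surj_aux n r hr
    linarith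
  have := abs_eq_zero.1 this
  linarith

end Pool.Agent.Q302.HM
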