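import Mathlib

/-!
If every subset of `[0,1]` of cardinality `< κ` is Lebesgue null then every subset of `ℝ` of
cardinality `< κ` is null for every finite Borel measure on `ℝ` without atoms.
-/

namespace Pool.Agent.Q302.HM

open Set MeasureTheory Topology Filter ProbabilityTheory
open scoped ENNReal

section

variable {m : Measure ℝ} [IsProbabilityMeasure m]

theorem continuous_cdf_of (hm : ∀ x, m {x} = 0) : Continuous (cdf m) := by
  rw [continuous_iff_continuousAt]
  intro x
  rw [(cdf m).mono.continuousAt_iff_leftLim_eq_rightLim, (cdf m).rightLim_eq]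
  have h1 : (cdf m).measure {x} = 0 := by rw [measure_cdf]; exact hm x
  rw [StieltjesFunction.measure_singleton, ENNReal.ofReal_eq_zero] at h1
  have h2 := (cdf m).mono.leftLim_le (le_refl x)
  linarith

theorem map_cdf (hm : ∀ x, m {x} = 0) : m.map (cdf m) = volume.restrict (Icc 0 1) := by
  have hc := continuous_cdf_of hm
  have : IsProbabilityMeasure (m.map (cdf m)) :=
    Measure.isProbabilityMeasure_map hc.measurable.aemeasurable
  refine Measure.ext_of_Iic _ _ fun c => ?_
  rw [Measure.map_apply hc.measurable measurableSet_Iic, Measure.restrict_apply measurableSet_Iic]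
  rcases lt_or_ge c 0 with h0 | h0
  · have e1 : cdf m ⁻¹' Iic c = ∅ := by
      ext x
      simp only [mem_preimage, mem_Iic, mem_empty_iff_false, iff_false, not_le]
      exact h0.trans_le (cdf_nonneg m x)
    have e2 : Iic c ∩ Icc (0 : ℝ) 1 = ∅ := by
      ext x
      simp only [mem_inter_iff, mem_Iic, mem_Icc, mem_empty_iff_false, iff_false, not_and]
      intro h1 h2
      linarith
    rw [e1, e2, measure_empty, measure_empty]
  rcases le_or_gt 1 c with h1 | h1
  · have e1 : cdf m ⁻¹' Iic c = univ := by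
      ext x
      simp only [mem_preimage, mem_Iic, mem_univ, iff_true]
      exact (cdf_le_one m x).trans h1
    have e2 : Iic c ∩ Icc (0 : ℝ) 1 = Icc 0 1 := by
      ext x
      simp only [mem_inter_iff, mem_Iic, mem_Icc, and_iff_right_iff_imp, and_imp]
      intro h1 h2
      linarith
    rw [e1, e2, measure_univ, Real.volume_Icc]
    norm_num
  have e2 : Iic c ∩ Icc (0 : ℝ) 1 = Icc 0 c := by
    ext x
    simp only [mem_inter_iff, mem_Iic, mem_Icc]
    constructor
    · rintro ⟨a, b, d⟩
      exact ⟨b, a⟩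
    · rintro ⟨a, b⟩
      exact ⟨b, a, b.trans h1.le⟩
  rw [e2, Real.volume_Icc, sub_zero]
  refine le_antisymm ?_ ?_
  · rcases (cdf m ⁻¹' Iic c).eq_empty_or_nonempty with he | hne
    · rw [he, measure_empty]
      exact zero_le
    · have hbdd : BddAbove (cdf m ⁻¹' Iic c) := by
        obtain ⟨b, hb⟩ := ((tendsto_cdf_atTop m).eventually (lt_mem_nhds h1)).exists
        refine ⟨b, fun x hx => ?_⟩
        by_contra hlt
        have := monotone_cdf m (not_le.1 hlt).le
        exact absurd (hb.trans_le this) (not_lt.2 hx)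
      have hcl : IsClosed (cdf m ⁻¹' Iic c) := isClosed_Iic.preimage hc
      have hmem := hcl.csSup_mem hne hbdd
      calc m (cdf m ⁻¹' Iic c) ≤ m (Iic (sSup (cdf m ⁻¹' Iic c))) :=
            measure_mono fun x hx => le_csSup hbdd hx
        _ = ENNReal.ofReal (cdf m (sSup (cdf m ⁻¹' Iic c))) := (ofReal_cdf m _).symm
        _ ≤ ENNReal.ofReal c := ENNReal.ofReal_le_ofReal hmem
  · rcases h0.eq_or_lt with h0' | h0'
    · rw [← h0', ENNReal.ofReal_zero]
      exact zero_le
    · obtain ⟨a, ha⟩ := ((tendsto_cdf_atBot m).eventually (gt_mem_nhds h0')).exists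
      obtain ⟨b, hb⟩ := ((tendsto_cdf_atTop m).eventually (lt_mem_nhds h1)).exists
      obtain ⟨d, hd⟩ := mem_range_of_exists_le_of_exists_ge hc ⟨a, ha.le⟩ ⟨b, hb.le⟩
      rw [← hd, ofReal_cdf]
      exact measure_mono fun x hx => monotone_cdf m hx

end

/-- transfer of small cardinality nullity -/
theorem null_of_small {κ : Cardinal.{0}}
    (hκ : ∀ S : Set ℝ, S ⊆ Icc 0 1 → Cardinal.mk S < κ → volume S = 0)
    (m : Measure ℝ) [IsFiniteMeasure m] (hm : ∀ x, m {x} = 0) (S : Set ℝ)
    (hS : Cardinal.mk S < κ) : m S = 0 := by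
  by_cases h0 : m univ = 0
  · exact measure_mono_null (subset_univ S) h0
  have : NeZero m := ⟨fun h => h0 (by rw [h]; simp)⟩
  let p : Measure ℝ := (m univ)⁻¹ • m
  have hp : IsProbabilityMeasure p := by
    refine ⟨?_⟩
    simp only [p, Measure.smul_apply, smul_eq_mul]
    exact ENNReal.inv_mul_cancel h0 (measure_ne_top m univ)
  have hpx : ∀ x, p {x} = 0 := fun x => by simp [p, hm x]
  have hc := continuous_cdf_of hpx
  have h1 : Cardinal.mk (cdf p '' S) < κ := Cardinal.mk_image_le.trans_lt hS
  have h2 : volume (cdf p '' S) = 0 := by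
    refine hκ _ ?_ h1
    rintro _ ⟨x, -, rfl⟩
    exact ⟨cdf_nonneg p x, cdf_le_one p x⟩
  obtain ⟨t, ht1, ht2, ht3⟩ := exists_measurable_superset_of_null h2
  have h3 : p (cdf p ⁻¹' t) = 0 := by
    rw [← Measure.map_apply hc.measurable ht2, map_cdf hpx]
    exact le_antisymm ((Measure.restrict_apply_le _ _).trans ht3.le) zero_le
  have h4 : p S = 0 := measure_mono_null
    (show S ⊆ cdf p ⁻¹' t from fun x hx => ht1 ⟨x, hx, rfl⟩) h3
  simp only [p, Measure.smul_apply, smul_eq_mul, mul_eq_zero, ENNReal.inv_eq_zero] at h4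
  rcases h4 with h4 | h4
  · exact absurd h4 (measure_ne_top m univ)
  · exact h4

end Pool.Agent.Q302.HM
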