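import Mathlib

/-!
A Borel set `U ⊆ (ℕ → Bool) × ℝ` all of whose vertical sections are Lebesgue null and such that
every Lebesgue null set is contained in one of the sections.
-/

namespace Pool.Agent.Q302.HM

open Set MeasureTheory Topology Filter
open scoped ENNReal

/-- code of open sets -/
def W (B : ℕ → Set ℝ) (k : ℕ) : Set ((ℕ → Bool) × ℝ) :=
  {p | ∃ m, p.1 (Nat.pair k m) = true ∧ p.2 ∈ B m}

theorem measurable_W {B : ℕ → Set ℝ} (hB : ∀ m, MeasurableSet (B m)) (k : ℕ) :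
    MeasurableSet (W B k) := by
  have : W B k = ⋃ m, ((fun p : (ℕ → Bool) × ℝ => p.1 (Nat.pair k m)) ⁻¹' {true}) ∩
      ((fun p : (ℕ → Bool) × ℝ => p.2) ⁻¹' (B m)) := by
    ext p
    simp [W]
  rw [this]
  refine MeasurableSet.iUnion fun m => MeasurableSet.inter ?_ ?_
  · exact ((measurable_pi_apply (Nat.pair k m)).comp measurable_fst) (measurableSet_singleton _)
  · exact measurable_snd (hB m)

theorem exists_universal_null : ∃ U : Set ((ℕ → Bool) × ℝ), MeasurableSet U ∧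
    (∀ x, volume {t : ℝ | (x, t) ∈ U} = 0) ∧
    ∀ N : Set ℝ, volume N = 0 → ∃ x, ∀ t ∈ N, (x, t) ∈ U := by
  classical
  obtain ⟨𝓑, h𝓑c, h𝓑e, h𝓑⟩ := TopologicalSpace.exists_countable_basis ℝ
  have h𝓑n : 𝓑.Nonempty := by
    obtain ⟨V, hV, -⟩ := h𝓑.exists_subset_of_mem_open (mem_univ (0 : ℝ)) isOpen_univ
    exact ⟨V, hV⟩
  obtain ⟨B, hB⟩ := h𝓑c.exists_eq_range h𝓑n
  have hBo : ∀ m, IsOpen (B m) := fun m => h𝓑.isOpen (by rw [hB]; exact mem_range_self m)
  have hBm : ∀ m, MeasurableSet (B m) := fun m => (hBo m).measurableSet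
  have hW := measurable_W hBm
  have hvol : ∀ k, Measurable fun x : ℕ → Bool => volume {t : ℝ | (x, t) ∈ W B k} := fun k =>
    measurable_measure_prodMk_left (hW k)
  let ε : ℕ → ℝ≥0∞ := fun k => (2⁻¹ : ℝ≥0∞) ^ k
  let V : ℕ → Set ((ℕ → Bool) × ℝ) := fun k =>
    W B k ∩ (fun p : (ℕ → Bool) × ℝ => p.1) ⁻¹' {x | volume {t : ℝ | (x, t) ∈ W B k} ≤ ε k}
  have hV : ∀ k, MeasurableSet (V k) := fun k =>
    (hW k).inter (measurable_fst (measurableSet_le (hvol k) measurable_const))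
  refine ⟨⋂ k, V k, MeasurableSet.iInter hV, ?_, ?_⟩
  · intro x
    refine le_antisymm ?_ zero_le
    refine ge_of_tendsto' (ENNReal.tendsto_pow_atTop_nhds_zero_of_lt_one
      (r := (2⁻¹ : ℝ≥0∞)) (by norm_num)) fun k => ?_
    by_cases hx : volume {t : ℝ | (x, t) ∈ W B k} ≤ ε k
    · refine (measure_mono ?_).trans hx
      intro t ht
      exact (mem_iInter.1 ht k).1
    · have : {t : ℝ | (x, t) ∈ ⋂ k, V k} = ∅ := by
        ext t
        simp only [mem_ofPred_eq, mem_empty_iff_false, iff_false]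
        intro ht
        exact hx (mem_iInter.1 ht k).2
      rw [this]
      simp
  · intro N hN
    have h1 : ∀ k, ∃ O : Set ℝ, N ⊆ O ∧ IsOpen O ∧ volume O ≤ ε k := by
      intro k
      obtain ⟨O, hNO, hO, hO2⟩ := N.exists_isOpen_le_add (μ := volume) (ε := ε k)
        (pow_ne_zero _ (by simp))
      refine ⟨O, hNO, hO, ?_⟩
      rw [hN, zero_add] at hO2
      exact hO2
    choose O hNO hO hO2 using h1
    let x : ℕ → Bool := fun n => decide (B (Nat.unpair n).2 ⊆ O (Nat.unpair n).1)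
    have hx : ∀ k m, x (Nat.pair k m) = true ↔ B m ⊆ O k := by
      intro k m
      simp [x]
    have hs : ∀ k, {t : ℝ | (x, t) ∈ W B k} = O k := by
      intro k
      ext t
      constructor
      · rintro ⟨m, hm, ht⟩
        exact (hx k m).1 hm ht
      · intro ht
        obtain ⟨b, hb, htb, hbO⟩ := h𝓑.exists_subset_of_mem_open ht (hO k)
        rw [hB] at hb
        obtain ⟨m, rfl⟩ := hb
        exact ⟨m, (hx k m).2 hbO, htb⟩
    refine ⟨x, fun t ht => mem_iInter.2 fun k => ⟨?_, ?_⟩⟩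
    · have : t ∈ {t : ℝ | (x, t) ∈ W B k} := by rw [hs]; exact hNO k ht
      exact this
    · change volume {t : ℝ | (x, t) ∈ W B k} ≤ ε k
      rw [hs]
      exact hO2 k

end Pool.Agent.Q302.HM
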