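import Mathlib
import Pool.Agent.Q302.HM.Digits
import Pool.Agent.Q302.HM.Univ
import Pool.Agent.Q302.HM.Small

/-!
There is a set of reals of positive 1/4-dimensional Hausdorff measure all of whose subsets have
1/4-dimensional Hausdorff measure 0 or ∞ (in ZFC).
-/

namespace Pool.Agent.Q302.HM

open Set MeasureTheory Topology Filter
open scoped ENNReal NNReal

/-- the class of cardinals of nonnull subsets of `[0,1]` -/
def NN : Set Cardinal.{0} := {c | ∃ S : Set ℝ, S ⊆ Icc 0 1 ∧ Cardinal.mk S = c ∧ volume S ≠ 0}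

theorem NN_nonempty : NN.Nonempty :=
  ⟨_, Icc 0 1, subset_rfl, rfl, by rw [Real.volume_Icc]; norm_num⟩

noncomputable def kap : Cardinal.{0} := sInf NN

theorem kap_small (S : Set ℝ) (hS : S ⊆ Icc 0 1) (h : Cardinal.mk S < kap) : volume S = 0 := by
  by_contra hc
  exact (notMem_of_lt_csInf h (OrderBot.bddBelow _)) ⟨S, hS, rfl, hc⟩

theorem exists_kap : ∃ S : Set ℝ, S ⊆ Icc 0 1 ∧ Cardinal.mk S = kap ∧ volume S ≠ 0 :=
  csInf_mem NN_nonempty

theorem aleph0_le_kap : Cardinal.aleph0 ≤ kap := by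
  obtain ⟨S, -, h2, h3⟩ := exists_kap
  rw [← h2]
  by_contra hc
  rw [not_le, Cardinal.lt_aleph0_iff_set_finite] at hc
  exact h3 (hc.measure_zero volume)

theorem exists_enum : ∃ (I : Type) (_ : LinearOrder I) (_ : WellFoundedLT I) (t : I → ℝ),
    (∀ i, t i ∈ Icc (0 : ℝ) 1) ∧ (volume (range t) ≠ 0) ∧ (∀ i : I, Cardinal.mk (Iio i) < kap) ∧
    (∀ i : I, ∃ j, i < j) := by
  obtain ⟨S, h1, h2, h3⟩ := exists_kap
  let I := kap.ord.ToType
  have hI : Cardinal.mk I = Cardinal.mk S := by rw [h2]; simp [I]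
  obtain ⟨e⟩ := Cardinal.eq.1 hI
  have hlt : ∀ i : I, Cardinal.mk (Iio i) < kap := by
    intro i
    have := Cardinal.mk_Iio_lt i (by simp [I])
    rwa [hI, h2] at this
  refine ⟨I, inferInstance, inferInstance, fun i => (e i : ℝ), fun i => h1 (e i).2, ?_, hlt, ?_⟩
  · have : range (fun i : I => (e i : ℝ)) = S := by
      ext x
      constructor
      · rintro ⟨i, rfl⟩
        exact (e i).2
      · intro hx
        exact ⟨e.symm ⟨x, hx⟩, by simp⟩
    rw [this]
    exact h3
  · intro i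
    by_contra hc
    push Not at hc
    have h4 : (univ : Set I) = insert i (Iio i) := by
      ext j
      simp only [mem_univ, mem_insert_iff, mem_Iio, true_iff]
      exact (hc j).eq_or_lt
    have h5 : Cardinal.mk (univ : Set I) ≤ Cardinal.mk (Iio i) + 1 := by
      rw [h4]; exact Cardinal.mk_insert_le
    rw [Cardinal.mk_univ, hI, h2] at h5
    exact absurd h5 (not_le.2 (Cardinal.add_lt_of_lt aleph0_le_kap (hlt i)
      (Cardinal.one_lt_aleph0.trans_le aleph0_le_kap)))

theorem holderOn (g : ℝ → ℝ) (hg : ∀ x y, g (Phi x y) = v y) :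
    HolderOnWith 2 (1 / 4) g {p | ∃ x y, p = Phi x y} := by
  rintro _ ⟨x, y, rfl⟩ _ ⟨x', y', rfl⟩
  rw [hg, hg]
  have h := holder x y x' y'
  rw [edist_dist, edist_dist, Real.dist_eq, Real.dist_eq]
  have h1 : |v y - v y'| ≤ 2 * |Phi x y - Phi x' y'| ^ (1 / 4 : ℝ) := by
    have h2 : (|v y - v y'| ^ 4) ^ (1 / 4 : ℝ) = |v y - v y'| := by
      rw [← Real.rpow_natCast, ← Real.rpow_mul (abs_nonneg _)]
      norm_num
    rw [← h2]
    have h3 : (|v y - v y'| ^ 4) ^ (1 / 4 : ℝ) ≤ (16 * |Phi x y - Phi x' y'|) ^ (1 / 4 : ℝ) := by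
      apply Real.rpow_le_rpow (by positivity) _ (by norm_num)
      have := abs_nonneg (Phi x y - Phi x' y')
      linarith
    refine h3.trans (le_of_eq ?_)
    rw [Real.mul_rpow (by norm_num) (abs_nonneg _)]
    congr 1
    rw [show (16 : ℝ) = 2 ^ (4 : ℝ) by norm_num, ← Real.rpow_mul (by norm_num)]
    norm_num
  calc ENNReal.ofReal |v y - v y'| ≤ ENNReal.ofReal (2 * |Phi x y - Phi x' y'| ^ (1 / 4 : ℝ)) :=
        ENNReal.ofReal_le_ofReal h1
    _ = _ := by
        rw [ENNReal.ofReal_mul (by norm_num), ← ENNReal.ofReal_rpow_of_nonneg (abs_nonneg _)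
          (by norm_num)]
        simp

theorem main : ∃ A : Set ℝ, Measure.hausdorffMeasure (1 / 4) A ≠ 0 ∧
    ∀ A₀ ⊆ A, Measure.hausdorffMeasure (1 / 4) A₀ = 0 ∨
      Measure.hausdorffMeasure (1 / 4) A₀ = ∞ := by
  obtain ⟨I, _, _, t, ht1, ht2, ht3, ht4⟩ := exists_enum
  obtain ⟨U, hU1, hU2, hU3⟩ := exists_universal_null
  let μ : Measure ℝ := Measure.hausdorffMeasure (1 / 4)
  have hμ0 : ∀ x, μ {x} = 0 := fun x =>
    (Measure.nullSingletonClass_hausdorff ℝ (d := 1 / 4) (by norm_num)).measure_singleton x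
  -- codes
  have hcode : ∀ i : I, ∃ x : ℕ → Bool, ∀ l < i, (x, t l) ∈ U := by
    intro i
    obtain ⟨x, hx⟩ := hU3 (t '' Iio i) (kap_small _ (by
      rintro _ ⟨l, -, rfl⟩; exact ht1 l) (Cardinal.mk_image_le.trans_lt (ht3 i)))
    exact ⟨x, fun l hl => hx _ ⟨l, hl, rfl⟩⟩
  choose x hx using hcode
  let y : I → (ℕ → Bool) := fun l => F (t l)
  have hy : ∀ l, v (y l) = t l := fun l => v_F (ht1 l)
  -- measurable inverses
  have hemb : MeasurableEmbedding (fun p : (ℕ → Bool) × (ℕ → Bool) => Phi p.1 p.2) :=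
    (continuous_Phi.isClosedEmbedding (fun p q h => Prod.ext (Phi_inj h).1
      (Phi_inj h).2)).measurableEmbedding
  obtain ⟨χ, hχm, hχ⟩ := hemb.exists_measurable_extend measurable_fst (fun _ => inferInstance)
  have hχ' : ∀ a b, χ (Phi a b) = a := fun a b => congrFun hχ (a, b)
  obtain ⟨ψ, hψm, hψ⟩ := hemb.exists_measurable_extend measurable_snd (fun _ => inferInstance)
  have hψ' : ∀ a b, ψ (Phi a b) = b := fun a b => congrFun hψ (a, b)
  let A : Set ℝ := {p | ∃ i l : I, l < i ∧ p = Phi (x i) (y l)}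
  refine ⟨A, ?_, ?_⟩
  · intro h0
    have h1 := (holderOn (fun p => v (ψ p)) (fun a b => by simp only [hψ'])).mono
      (show A ⊆ {p | ∃ x y, p = Phi x y} by rintro p ⟨i, l, -, rfl⟩; exact ⟨_, _, rfl⟩)
    have h2 := h1.hausdorffMeasure_image_le (by norm_num) (d := 1) (by norm_num)
    have h3 : (((1 / 4 : ℝ≥0) : ℝ) * 1) = (1 / 4 : ℝ) := by norm_num
    rw [h3, h0, mul_zero, MeasureTheory.hausdorffMeasure_real] at h2
    apply ht2
    refine le_antisymm (le_trans (measure_mono ?_) h2) zero_le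
    rintro _ ⟨l, rfl⟩
    obtain ⟨i, hi⟩ := ht4 l
    exact ⟨Phi (x i) (y l), ⟨i, l, hi, rfl⟩, by simp only [hψ', hy]⟩
  · intro A₀ hA₀
    by_contra hcon
    push Not at hcon
    obtain ⟨hne, hfin⟩ := hcon
    apply hne
    let m : Measure ℝ := μ.restrict A₀
    have hmf : IsFiniteMeasure m := ⟨by
      simp only [m, Measure.restrict_apply MeasurableSet.univ, univ_inter]
      exact lt_top_iff_ne_top.2 hfin⟩
    have hm0 : ∀ z, m {z} = 0 := fun z =>
      le_antisymm ((Measure.restrict_apply_le _ _).trans (hμ0 z).le) zero_le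
    let π : Measure (ℕ → Bool) := m.map χ
    have hπ : IsFiniteMeasure π := Measure.isFiniteMeasure_map m χ
    have hF1 : (π.prod (volume : Measure ℝ)) U = 0 := by
      rw [Measure.prod_apply hU1]
      have : ∀ z : ℕ → Bool, volume (Prod.mk z ⁻¹' U) = 0 := hU2
      simp [this]
    have hF2 : ∀ᵐ s ∂(volume : Measure ℝ), π ((fun z => (z, s)) ⁻¹' U) = 0 := by
      rw [Measure.prod_apply_symm hU1] at hF1
      exact (lintegral_eq_zero_iff (measurable_measure_prodMk_right hU1)).1 hF1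
    obtain ⟨j, hj⟩ : ∃ j, π ((fun z => (z, t j)) ⁻¹' U) = 0 := by
      by_contra hc
      push Not at hc
      apply ht2
      refine measure_mono_null ?_ (ae_iff.1 hF2)
      rintro _ ⟨j, rfl⟩
      exact hc j
    have hUj : MeasurableSet ((fun z : ℕ → Bool => (z, t j)) ⁻¹' U) :=
      (measurable_id.prodMk measurable_const) hU1
    have hj2 : μ (χ ⁻¹' ((fun z => (z, t j)) ⁻¹' U) ∩ A₀) = 0 := by
      rw [← Measure.restrict_apply (hχm hUj), ← Measure.map_apply hχm hUj]
      exact hj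
    let R : Set ℝ := (fun q : I × I => Phi (x q.1) (y q.2)) '' ((insert j (Iio j)) ×ˢ (Iio j))
    have hR : Cardinal.mk R < kap := by
      refine Cardinal.mk_image_le.trans_lt ?_
      rw [Cardinal.mk_setProd]
      refine Cardinal.mul_lt_of_lt aleph0_le_kap ?_ (ht3 j)
      exact Cardinal.mk_insert_le.trans_lt (Cardinal.add_lt_of_lt aleph0_le_kap (ht3 j)
        (Cardinal.one_lt_aleph0.trans_le aleph0_le_kap))
    have hR0 : m R = 0 := null_of_small kap_small m hm0 R hR
    have hR1 : μ (R ∩ A₀) = 0 := by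
      obtain ⟨T', hT1, hT2, hT3⟩ := exists_measurable_superset_of_null hR0
      rw [Measure.restrict_apply hT2] at hT3
      exact measure_mono_null (inter_subset_inter_left _ hT1) hT3
    refine measure_mono_null ?_ (measure_union_null hj2 hR1)
    intro p hp
    obtain ⟨i, l, hli, rfl⟩ := hA₀ hp
    rcases lt_or_ge j i with hji | hij
    · left
      refine ⟨?_, hp⟩
      simp only [mem_preimage, hχ']
      exact hx i j hji
    · right
      refine ⟨⟨(i, l), ⟨?_, ?_⟩, rfl⟩, hp⟩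
      · rcases hij.eq_or_lt with h | h
        · exact Or.inl h
        · exact Or.inr h
      · exact hli.trans_le hij

end Pool.Agent.Q302.HM
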