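import Mathlib
import Pool.Agent.Q302.HM.Main

/-!
Gauge functions and Hausdorff measures as in the problem file of MP_b87f19_lc.
-/

namespace Pool.Agent.Q302.HM

open Set MeasureTheory Topology Filter
open scoped ENNReal NNReal

/-- Gauge functions `f : [0,∞) → [0,∞)`: nondecreasing, right-continuous, `f 0 = 0` and
`f t > 0` for `t > 0`. -/
def IsGauge (f : ℝ≥0 → ℝ≥0) : Prop :=
  Monotone f ∧ (∀ t, ContinuousWithinAt f (Ici t) t) ∧ f 0 = 0 ∧ ∀ t, 0 < t → 0 < f t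

/-- `H^f_δ(A)`: infimum of `∑ f (diam U_i)` over countable covers by sets of diameter `≤ δ`. -/
noncomputable def Hdelta (f : ℝ≥0 → ℝ≥0) (δ : ℝ≥0) (A : Set ℝ) : ℝ≥0∞ :=
  ⨅ (U : ℕ → Set ℝ) (_ : A ⊆ ⋃ i, U i) (_ : ∀ i, Metric.ediam (U i) ≤ δ),
    ∑' i, (f (Metric.ediam (U i)).toNNReal : ℝ≥0∞)

/-- `H^f(A)`, the supremum (= limit as `δ → 0+`) of `H^f_δ(A)` over `δ > 0`. -/
noncomputable def H (f : ℝ≥0 → ℝ≥0) (A : Set ℝ) : ℝ≥0∞ :=
  ⨆ (δ : ℝ≥0) (_ : 0 < δ), Hdelta f δ A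

theorem isGauge_quarter : IsGauge (fun t : ℝ≥0 => t ^ (1 / 4 : ℝ)) := by
  refine ⟨NNReal.monotone_rpow_of_nonneg (by norm_num), fun t => ?_, ?_, ?_⟩
  · exact (NNReal.continuous_rpow_const (by norm_num)).continuousWithinAt
  · exact NNReal.zero_rpow (by norm_num)
  · intro t ht
    exact NNReal.rpow_pos ht

theorem H_quarter (A : Set ℝ) :
    H (fun t : ℝ≥0 => t ^ (1 / 4 : ℝ)) A = Measure.hausdorffMeasure (1 / 4) A := by
  rw [Measure.hausdorffMeasure_apply]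
  have key : ∀ s : Set ℝ, Metric.ediam s ≠ ∞ →
      (((Metric.ediam s).toNNReal ^ (1 / 4 : ℝ) : ℝ≥0) : ℝ≥0∞)
        = ⨆ _ : s.Nonempty, Metric.ediam s ^ (1 / 4 : ℝ) := by
    intro s hs
    rw [ENNReal.coe_rpow_of_nonneg _ (by norm_num), ENNReal.coe_toNNReal hs]
    rcases s.eq_empty_or_nonempty with rfl | hne
    · simp
    · simp [hne]
  unfold H Hdelta
  refine le_antisymm ?_ ?_
  · refine iSup₂_le fun δ hδ => ?_
    refine le_trans ?_ (le_iSup₂ (f := fun (r : ℝ≥0∞) (_ : 0 < r) =>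
      ⨅ (t : ℕ → Set ℝ) (_ : A ⊆ ⋃ n, t n) (_ : ∀ n, Metric.ediam (t n) ≤ r),
          ∑' n, ⨆ _ : (t n).Nonempty, Metric.ediam (t n) ^ (1 / 4 : ℝ)) (δ : ℝ≥0∞)
      (by exact_mod_cast hδ))
    refine le_iInf fun t => le_iInf fun h1 => le_iInf fun h2 => ?_
    refine (iInf_le_of_le t (iInf_le_of_le h1 (iInf_le_of_le h2 ?_)))
    exact le_of_eq (tsum_congr fun n => key _ (ne_top_of_le_ne_top ENNReal.coe_ne_top (h2 n)))
  · refine iSup₂_le fun r hr => ?_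
    have hm : min r 1 ≠ ∞ := ne_top_of_le_ne_top ENNReal.one_ne_top (min_le_right _ _)
    have hm0 : 0 < min r 1 := lt_min hr one_pos
    refine le_trans ?_ (le_iSup₂ (f := fun (δ : ℝ≥0) (_ : 0 < δ) =>
      ⨅ (U : ℕ → Set ℝ) (_ : A ⊆ ⋃ i, U i) (_ : ∀ i, Metric.ediam (U i) ≤ δ),
        ∑' i, (((Metric.ediam (U i)).toNNReal ^ (1 / 4 : ℝ) : ℝ≥0) : ℝ≥0∞)) (min r 1).toNNReal
      (ENNReal.toNNReal_pos hm0.ne' hm))
    refine le_iInf fun t => le_iInf fun h1 => le_iInf fun h2 => ?_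
    rw [ENNReal.coe_toNNReal hm] at h2
    refine (iInf_le_of_le t (iInf_le_of_le h1 (iInf_le_of_le
      (fun n => (h2 n).trans (min_le_left _ _)) ?_)))
    exact le_of_eq (tsum_congr fun n => (key _ (ne_top_of_le_ne_top hm (h2 n))).symm)

/-- sanity check: `H^f` is the limit of `H^f_δ` as `δ → 0+`. -/
theorem tendsto_Hdelta (f : ℝ≥0 → ℝ≥0) (A : Set ℝ) :
    Tendsto (fun δ => Hdelta f δ A) (𝓝[>] 0) (𝓝 (H f A)) := by
  have hanti : Antitone (fun δ => Hdelta f δ A) := by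
    intro δ δ' h
    refine le_iInf fun t => le_iInf fun h1 => le_iInf fun h2 => ?_
    exact iInf_le_of_le t (iInf_le_of_le h1 (iInf_le_of_le
      (fun n => (h2 n).trans (by exact_mod_cast h)) le_rfl))
  refine tendsto_order.2 ⟨fun a ha => ?_, fun a ha => ?_⟩
  · obtain ⟨δ, hδ⟩ := lt_iSup_iff.1 ha
    obtain ⟨hδ0, hδ1⟩ := lt_iSup_iff.1 hδ
    filter_upwards [Ioo_mem_nhdsGT hδ0] with ε hε
    exact hδ1.trans_le (hanti hε.2.le)
  · filter_upwards [self_mem_nhdsWithin] with ε hε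
    exact lt_of_le_of_lt (le_iSup₂ (f := fun (δ : ℝ≥0) (_ : 0 < δ) => Hdelta f δ A) ε hε) ha

end Pool.Agent.Q302.HM
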